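import Pool.Agent.W567.IV.Main
import Pool.Agent.W567.IV.Meas
import Pool.Agent.W335.IV.Germ2
import Pool.Agent.W12.IV.Alg
import Pool.Agent.W40.IV.Gen

/-!
# Ivrii's conjecture for bounces off round pieces of the boundary

Ivrii's conjecture says that the periodic points of the billiard of a smooth bounded domain form a
null set of the phase space.  We prove, in every dimension and for all periods at once, that the
periodic points all of whose bounce points are spherical or flat points of the boundary (the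
boundary is, near the bounce point, a round sphere of any centre and radius, convex or concave side,
or a hyperplane) form a null set; so the conjecture holds for every domain whose boundary consists
of spherical and flat points, for instance a ball minus finitely many disjoint balls in any position.

Proof: a tower of square roots (the intersection parameters) over the field of rational functions
on the space of lines; in an isotropic degeneration of the lines the last reflection is
recognisable (its square root is not in the tower, the outgoing direction is not proportional),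
so the generic line is never periodic; an ultraproduct turns a Zariski dense family of closed
chains into a generic closed chain.
-/

set_option autoImplicit false

open MeasureTheory

namespace Pool.Agent.Results.MP_249f74_an.UmbilicBounces

/-- near `p` the set `f = 0` is a round sphere (of any centre, any radius, seen from any side) -/
def SphericalAt {d : ℕ} (f : EuclideanSpace ℝ (Fin d) → ℝ) (p : EuclideanSpace ℝ (Fin d)) : Prop :=
  ∃ (O : EuclideanSpace ℝ (Fin d)) (r : ℝ), 0 < r ∧ ∀ᶠ x in nhds p, f x = 0 ↔ ‖x - O‖ = r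

/-- near `p` the set `f = 0` is a hyperplane -/
def FlatAt {d : ℕ} (f : EuclideanSpace ℝ (Fin d) → ℝ) (p : EuclideanSpace ℝ (Fin d)) : Prop :=
  ∃ (ν : EuclideanSpace ℝ (Fin d)) (h : ℝ), ‖ν‖ = 1 ∧ ∀ᶠ x in nhds p, f x = 0 ↔ inner ℝ ν x = h

lemma sph_onMir {d : ℕ} {f : EuclideanSpace ℝ (Fin d) → ℝ} {p : EuclideanSpace ℝ (Fin d)}
    (h : SphericalAt f p) : ∃ m, W567.IV.OnMir f p m := by
  obtain ⟨O, r, hr, h⟩ := h
  refine ⟨Sum.inl ⟨fun i => O i, r ^ 2⟩, by positivity, ?_⟩
  refine h.mono (fun x hx => ?_)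
  rw [hx]
  have e1 : ∑ i, (x i - O i) ^ 2 = ‖x - O‖ ^ 2 := by
    rw [EuclideanSpace.norm_sq_eq]
    simp
  change ‖x - O‖ = r ↔ ∑ i, (x i - O i) ^ 2 = r ^ 2
  rw [e1]
  constructor
  · intro h1
    rw [h1]
  · intro h1
    exact (pow_left_inj₀ (norm_nonneg _) hr.le (by norm_num)).mp h1

lemma flat_onMir {d : ℕ} {f : EuclideanSpace ℝ (Fin d) → ℝ} {p : EuclideanSpace ℝ (Fin d)}
    (h : FlatAt f p) : ∃ m, W567.IV.OnMir f p m := by
  obtain ⟨ν, r, hr, h⟩ := h
  have e0 : ∀ x y : EuclideanSpace ℝ (Fin d), inner ℝ x y = ∑ i, x i * y i := by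
    intro x y
    rw [PiLp.inner_apply]
    refine Finset.sum_congr rfl (fun i _ => ?_)
    simp [mul_comm]
  refine ⟨Sum.inr ⟨fun i => ν i, r⟩, ?_, ?_⟩
  · change ∑ i, ν i * ν i = 1
    rw [← e0, real_inner_self_eq_norm_sq, hr]
    norm_num
  · refine h.mono (fun x hx => ?_)
    rw [hx]
    change inner ℝ ν x = r ↔ ∑ i, ν i * x i = r
    rw [e0]

/-- **Ivrii's conjecture for round pieces.**  Let `f` be differentiable with non-vanishing gradient
on `f = 0` (the domain is `f < 0`; the problem asks about smooth `f` with bounded `f < 0`).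

(A) The phase points whose billiard orbit is periodic with all bounce points spherical or flat form
a set of measure zero (the segments of the orbit need not even stay inside the domain).

(B) If every point of `f = 0` is spherical or flat, then the set of all periodic points, in the
exact form of the frozen statement of the problem, has measure zero. -/
theorem result (d : ℕ) (hd : 2 ≤ d) (f : EuclideanSpace ℝ (Fin d) → ℝ) (hf : Differentiable ℝ f)
    (hreg : ∀ x, f x = 0 → gradient f x ≠ 0) :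
    MeasureTheory.Measure.hausdorffMeasure ((2 * d - 2 : ℕ) : ℝ)
      {q : EuclideanSpace ℝ (Fin d) × EuclideanSpace ℝ (Fin d) |
        f q.1 = 0 ∧ ‖q.2‖ = 1 ∧ inner ℝ q.2 (gradient f q.1) < 0 ∧
        ∃ n : ℕ, 1 ≤ n ∧ ∃ p u : ℕ → EuclideanSpace ℝ (Fin d),
          p 0 = q.1 ∧ u 0 = q.2 ∧ p n = q.1 ∧ u n = q.2 ∧
          ∀ k < n, (SphericalAt f (p k) ∨ FlatAt f (p k)) ∧
            f (p k) = 0 ∧ ‖u k‖ = 1 ∧ inner ℝ (u k) (gradient f (p k)) < 0 ∧
            (∃ t : ℝ, 0 < t ∧ p (k + 1) = p k + t • u k) ∧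
            u (k + 1) = u k - (2 * inner ℝ (u k) (gradient f (p (k + 1))) /
                ‖gradient f (p (k + 1))‖ ^ 2) • gradient f (p (k + 1))} = 0 ∧
    ((∀ x, f x = 0 → SphericalAt f x ∨ FlatAt f x) →
      MeasureTheory.Measure.hausdorffMeasure ((2 * d - 2 : ℕ) : ℝ)
      {q : EuclideanSpace ℝ (Fin d) × EuclideanSpace ℝ (Fin d) |
        f q.1 = 0 ∧ ‖q.2‖ = 1 ∧ inner ℝ q.2 (gradient f q.1) < 0 ∧
        ∃ n : ℕ, 1 ≤ n ∧ ∃ p u : ℕ → EuclideanSpace ℝ (Fin d),
          p 0 = q.1 ∧ u 0 = q.2 ∧ p n = q.1 ∧ u n = q.2 ∧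
          ∀ k < n, f (p k) = 0 ∧ ‖u k‖ = 1 ∧ inner ℝ (u k) (gradient f (p k)) < 0 ∧
            (∃ t : ℝ, 0 < t ∧ p (k + 1) = p k + t • u k ∧
              ∀ s ∈ Set.Ioo (0 : ℝ) t, f (p k + s • u k) < 0) ∧
            u (k + 1) = u k - (2 * inner ℝ (u k) (gradient f (p (k + 1))) /
                ‖gradient f (p (k + 1))‖ ^ 2) • gradient f (p (k + 1))} = 0) := by
  have hs2 : W567.IV.S_spec2 := W567.IV.spec2_of W12.IV.sqrt_ W12.IV.tr W40.IV.gen_ W12.IV.w_
  have hs : W567.IV.S_spec := W567.IV.spec_of W12.IV.sqrt_ W12.IV.tr W40.IV.gen_ W12.IV.w_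
  have hmain := W567.IV.PerU_null (W567.IV.meas_of W636.IV.meas2) W636.IV.meas2 Pool.W335.IV.germ2
    hs2 (W567.IV.univ_of hs) W460.IV.dyn2 hd f hf hreg
  have hm : ∀ x, SphericalAt f x ∨ FlatAt f x → ∃ m, W567.IV.OnMir f x m := by
    rintro x (h | h)
    · exact sph_onMir h
    · exact flat_onMir h
  constructor
  · refine measure_mono_null ?_ hmain
    rintro q ⟨-, -, -, N, hN, p, u, h0, h1, h2, h3, hk⟩
    refine ⟨N, hN, p, u, h0, h1, h2, h3, fun k hkN => ?_⟩
    obtain ⟨g0, g1, g2, g3, g4, g5⟩ := hk k hkN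
    exact ⟨⟨g1, g2, g3, g4, g5⟩, hm _ g0⟩
  · intro hall
    refine measure_mono_null ?_ hmain
    rintro q ⟨-, -, -, N, hN, p, u, h0, h1, h2, h3, hk⟩
    refine ⟨N, hN, p, u, h0, h1, h2, h3, fun k hkN => ?_⟩
    obtain ⟨g1, g2, g3, ⟨t, g4, g5, -⟩, g6⟩ := hk k hkN
    exact ⟨⟨g1, g2, g3, ⟨t, g4, g5⟩, g6⟩, hm _ (hall _ g1)⟩

end Pool.Agent.Results.MP_249f74_an.UmbilicBounces
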